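import Mathlib

/-!
# The approximate double description method is correct in every dimension

Input: `A` with rows `A k ∈ ℝ^d`, `k < m`, such that `P = {x : A x ≤ 𝟙}` is bounded and
`S = {x : A_k x ≤ 1, k < d + 1}` is a simplex, and `ε ≥ 0`.  We model the runs of the approximate
double description method (ADDM) literally and prove, for every `d ≥ 2`, that every run can be
carried out and ends with `P ⊆ conv c(V) ⊆ (1 + ε) P`.

The proof: the `d`-subsets of the index sets `I(v)` carry a mod-2 cycle `z` such that a generic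
linear functional lies in an odd number of the cones spanned by the rows `A_k`, `k ∈ B`, `B ∈ z`.
A step of the algorithm replaces `z` by `z_- ∪ {R ∪ {i} : R ∈ ∂ z_-}`, and the parity is kept since
the vectors `A_k`, `k ∈ B ∪ {i}`, lie in an open half-space for each `B` of a node in `V_0 ∪ V_+`.
-/

open Finset

namespace Pool.Agent.Results.MP_d4db3843_lc.CorrectEveryDimension

/-- The polytope `(1 + t) P = {x : A x ≤ (1 + t) 𝟙}`; `P` itself is `poly A 0`. -/
def poly {d m : ℕ} (A : Fin m → Fin d → ℝ) (t : ℝ) : Set (Fin d → ℝ) :=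
  {x | ∀ k, A k ⬝ᵥ x ≤ 1 + t}

/-- The set `S = {x : A_k x ≤ 1 for the first d + 1 rows}` (the rows are numbered from `0`). -/
def firstSet {d m : ℕ} (A : Fin m → Fin d → ℝ) : Set (Fin d → ℝ) :=
  {x | ∀ k : Fin m, (k : ℕ) < d + 1 → A k ⬝ᵥ x ≤ 1}

/-- A (full-dimensional) simplex of `ℝ^d`: the convex hull of `d + 1` affinely independent
points. -/
def IsSimplex {d : ℕ} (S : Set (Fin d → ℝ)) : Prop :=
  ∃ p : Fin (d + 1) → Fin d → ℝ, AffineIndependent ℝ p ∧ S = convexHull ℝ (Set.range p)

/-- The admissible inputs of ADDM. -/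
structure Admissible {d m : ℕ} (A : Fin m → Fin d → ℝ) (ε : ℝ) : Prop where
  le_m : d + 1 ≤ m
  bounded : Bornology.IsBounded (poly A 0)
  simplex : IsSimplex (firstSet A)
  eps_nonneg : 0 ≤ ε

/-- A state of ADDM: a finite set `V` of nodes, a graph on `V`, the points `c(v)` and the index
sets `I(v)`. -/
structure State (d m : ℕ) where
  V : Type
  fin : Finite V
  G : SimpleGraph V
  c : V → Fin d → ℝ
  I : V → Finset (Fin m)

/-- The start of ADDM: nodes `v_0, …, v_d`, the complete graph, `I(v_j)` consists of the indices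
`k < d + 1`, `k ≠ j`, and `A_k c(v_j) = 1 + ε/2` for these `k`. -/
def IsStart {d m : ℕ} (A : Fin m → Fin d → ℝ) (ε : ℝ) (s : State d m) : Prop :=
  ∃ c : Fin (d + 1) → Fin d → ℝ,
    (∀ (j : Fin (d + 1)) (k : Fin m), (k : ℕ) < d + 1 → (k : ℕ) ≠ j → A k ⬝ᵥ c j = 1 + ε / 2) ∧
    s = { V := Fin (d + 1), fin := inferInstance, G := ⊤, c := c,
          I := fun j => {k : Fin m | (k : ℕ) < d + 1 ∧ (k : ℕ) ≠ j} }

/-- The choice of `V_-`, `V_0`, `V_+` in part (a) of the step which treats row `i`. -/
structure Partition {d m : ℕ} (A : Fin m → Fin d → ℝ) (ε : ℝ) (i : Fin m) (s : State d m) where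
  Vm : Set s.V
  V0 : Set s.V
  Vp : Set s.V
  nonempty : Vm.Nonempty
  disj_m0 : Disjoint Vm V0
  disj_mp : Disjoint Vm Vp
  disj_0p : Disjoint V0 Vp
  union : Vm ∪ V0 ∪ Vp = Set.univ
  minus : ∀ v ∈ Vm, A i ⬝ᵥ s.c v < 1 + ε / 2
  plus : ∀ v ∈ Vp, 1 + ε / 2 < A i ⬝ᵥ s.c v
  zero : ∀ v ∈ V0, 1 ≤ A i ⬝ᵥ s.c v ∧ A i ⬝ᵥ s.c v ≤ 1 + ε

/-- The edges `uw` of the graph with `u ∈ V_-` and `w ∈ V_+`. -/
def Crossing {d m : ℕ} {A : Fin m → Fin d → ℝ} {ε : ℝ} {i : Fin m} {s : State d m}
    (q : Partition A ε i s) : Type :=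
  {e : s.V × s.V // e.1 ∈ q.Vm ∧ e.2 ∈ q.Vp ∧ s.G.Adj e.1 e.2}

/-- The choice of the points of the new nodes in part (b): one new node for every crossing
edge. -/
structure Points {d m : ℕ} {A : Fin m → Fin d → ℝ} {ε : ℝ} {i : Fin m} {s : State d m}
    (q : Partition A ε i s) where
  pt : Crossing q → Fin d → ℝ
  mem_segment : ∀ e, pt e ∈ segment ℝ (s.c e.1.1) (s.c e.1.2)
  ge : ∀ e, 1 ≤ A i ⬝ᵥ pt e
  le : ∀ e, A i ⬝ᵥ pt e ≤ 1 + ε

open Classical in
/-- The index sets after parts (b), (c), (d): `i` is added for all nodes of `V_0`, old or new. -/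
noncomputable def newI {d m : ℕ} {A : Fin m → Fin d → ℝ} {ε : ℝ} {i : Fin m} {s : State d m}
    (q : Partition A ε i s) : {v : s.V // v ∉ q.Vp} ⊕ Crossing q → Finset (Fin m)
  | Sum.inl v => if v.1 ∈ q.V0 then insert i (s.I v.1) else s.I v.1
  | Sum.inr e => insert i (s.I e.1.1 ∩ s.I e.1.2)

/-- The state after the step: the nodes of `V_+` are deleted, the new nodes are added, and
`uw` is an edge iff `u ≠ w` and `|I(u) ∩ I(w)| ≥ d - 1`. -/
noncomputable def next {d m : ℕ} {A : Fin m → Fin d → ℝ} {ε : ℝ} {i : Fin m} {s : State d m}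
    (q : Partition A ε i s) (p : Points q) : State d m where
  V := {v : s.V // v ∉ q.Vp} ⊕ Crossing q
  fin := by
    haveI := s.fin
    haveI : Finite (Crossing q) := by unfold Crossing; infer_instance
    infer_instance
  G :=
    { Adj := fun u w => u ≠ w ∧ d - 1 ≤ (newI q u ∩ newI q w).card
      symm := ⟨fun u w h => ⟨h.1.symm, by rw [Finset.inter_comm]; exact h.2⟩⟩
      loopless := ⟨fun u h => h.1 rfl⟩ }
  c := Sum.elim (fun v => s.c v.1) p.pt
  I := newI q

/-- `Reach A ε n s`: the state `s` can occur in a run of ADDM after the rows `0, …, n - 1` have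
been treated. -/
inductive Reach {d m : ℕ} (A : Fin m → Fin d → ℝ) (ε : ℝ) : ℕ → State d m → Prop
  | start (s : State d m) (hs : IsStart A ε s) : Reach A ε (d + 1) s
  | step (n : ℕ) (s : State d m) (hs : Reach A ε n s) (hn : n < m)
      (q : Partition A ε ⟨n, hn⟩ s) (p : Points q) : Reach A ε (n + 1) (next q p)

/-- ADDM is correct in dimension `d`: for every admissible input the start can be carried out,
at every state that can occur before row `n` is treated there is an admissible choice in (a), and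
for every admissible choice in (a) there is an admissible choice in (b); and in every state that
can occur at the end, `P ⊆ conv c(V) ⊆ (1 + ε) P`. -/
def CorrectInDimension (d : ℕ) : Prop :=
  ∀ (m : ℕ) (A : Fin m → Fin d → ℝ) (ε : ℝ), Admissible A ε →
    (∃ s, IsStart A ε s) ∧
    (∀ (n : ℕ) (s : State d m), Reach A ε n s → ∀ hn : n < m,
      Nonempty (Partition A ε ⟨n, hn⟩ s) ∧
      ∀ q : Partition A ε ⟨n, hn⟩ s, Nonempty (Points q)) ∧
    (∀ s : State d m, Reach A ε m s →
      poly A 0 ⊆ convexHull ℝ (Set.range s.c) ∧ convexHull ℝ (Set.range s.c) ⊆ poly A ε)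


/-! ### Cones and generic functionals -/

section cones

variable {d m : ℕ}

/-- every representation of `f` by the rows uses at least `d` rows -/
def Gen (A : Fin m → Fin d → ℝ) (f : Fin d → ℝ) : Prop :=
  ∀ x : Fin m → ℝ, ∑ k, x k • A k = f → d ≤ #{k | x k ≠ 0}

/-- `f` lies in the cone of the rows `A k`, `k ∈ B` -/
def InCone (A : Fin m → Fin d → ℝ) (f : Fin d → ℝ) (B : Finset (Fin m)) : Prop :=
  ∃ x : Fin m → ℝ, (∀ k, 0 ≤ x k) ∧ (∀ k, k ∉ B → x k = 0) ∧ ∑ k, x k • A k = f

lemma ne_zero_of_gen {A : Fin m → Fin d → ℝ} {f : Fin d → ℝ} (hf : Gen A f)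
    {B : Finset (Fin m)} (hB : B.card = d) {x : Fin m → ℝ} (hx0 : ∀ k, k ∉ B → x k = 0)
    (hx : ∑ k, x k • A k = f) : ∀ k ∈ B, x k ≠ 0 := by
  intro k hk h0
  have h1 := hf x hx
  have h2 : (Finset.univ.filter fun k => x k ≠ 0) ⊆ B.erase k := by
    intro l hl
    rw [Finset.mem_filter] at hl
    rw [Finset.mem_erase]
    refine ⟨fun h => hl.2 (h ▸ h0), ?_⟩
    by_contra hlB
    exact hl.2 (hx0 l hlB)
  have h3 := Finset.card_le_card h2
  rw [Finset.card_erase_of_mem hk] at h3
  have h4 : 0 < B.card := Finset.card_pos.mpr ⟨k, hk⟩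
  omega

lemma dep_zero {A : Fin m → Fin d → ℝ} {f : Fin d → ℝ} (hf : Gen A f)
    {B : Finset (Fin m)} (hB : B.card = d) {x : Fin m → ℝ} (hx0 : ∀ k, k ∉ B → x k = 0)
    (hx : ∑ k, x k • A k = f) {y : Fin m → ℝ} (hy0 : ∀ k, k ∉ B → y k = 0)
    (hy : ∑ k, y k • A k = 0) : ∀ k, y k = 0 := by
  intro k
  by_contra hk
  have hkB : k ∈ B := by
    by_contra h
    exact hk (hy0 k h)
  set t := - x k / y k with ht
  have h1 : ∑ l, (x l + t * y l) • A l = f := by
    simp only [add_smul, Finset.sum_add_distrib, hx, mul_smul, ← Finset.smul_sum, hy, smul_zero,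
      add_zero]
  have h2 := ne_zero_of_gen hf hB (x := fun l => x l + t * y l)
    (fun l hl => by simp [hx0 l hl, hy0 l hl]) h1 k hkB
  apply h2
  simp only [ht]
  field_simp
  ring

/-- positivity of the representation -/
lemma pos_of_inCone {A : Fin m → Fin d → ℝ} {f : Fin d → ℝ} (hf : Gen A f)
    {B : Finset (Fin m)} (hB : B.card = d) (h : InCone A f B) :
    ∃ x : Fin m → ℝ, (∀ k ∈ B, 0 < x k) ∧ (∀ k, k ∉ B → x k = 0) ∧ ∑ k, x k • A k = f := by
  obtain ⟨x, hx, hx0, hs⟩ := h
  exact ⟨x, fun k hk => lt_of_le_of_ne (hx k) (Ne.symm (ne_zero_of_gen hf hB hx0 hs k hk)),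
    hx0, hs⟩

/-- a nontrivial linear relation between `d + 1` rows -/
lemma exists_dep (A : Fin m → Fin d → ℝ) (T : Finset (Fin m)) (hT : T.card = d + 1) :
    ∃ y : Fin m → ℝ, (∀ k, k ∉ T → y k = 0) ∧ ∑ k, y k • A k = 0 ∧ ∃ k, y k ≠ 0 := by
  classical
  have h1 : ¬ LinearIndependent ℝ (fun k : T => A k) := by
    intro h
    have h2 := h.fintype_card_le_finrank
    simp only [Fintype.card_coe, Module.finrank_fintype_fun_eq_card, Fintype.card_fin] at h2
    omega
  rw [Fintype.not_linearIndependent_iff] at h1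
  obtain ⟨g, hg, i, hi⟩ := h1
  refine ⟨fun k => if h : k ∈ T then g ⟨k, h⟩ else 0, fun k hk => by simp [hk], ?_, i.1, ?_⟩
  · rw [← hg, ← Finset.sum_subset (Finset.subset_univ T), ← Finset.sum_coe_sort T]
    · apply Finset.sum_congr rfl
      intro k _
      simp
    · intro k _ hk
      simp [hk]
  · simpa using hi

lemma sum_smul_dot (A : Fin m → Fin d → ℝ) (x : Fin m → ℝ) (c : Fin d → ℝ) :
    (∑ k, x k • A k) ⬝ᵥ c = ∑ k, x k * (A k ⬝ᵥ c) := by
  rw [sum_dotProduct]
  simp [smul_dotProduct]

open Classical in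
/-- The main lemma: if the `d + 1` rows `A k`, `k ∈ T`, lie in an open half-space then a generic
`f` lies in an even number (`0` or `2`) of the cones of `d` of them. -/
lemma even_cone {A : Fin m → Fin d → ℝ} {f : Fin d → ℝ} (hf : Gen A f) (T : Finset (Fin m))
    (hT : T.card = d + 1) (c : Fin d → ℝ) (hc : ∀ k ∈ T, 0 < A k ⬝ᵥ c) :
    Even (Finset.card (T.filter fun k => InCone A f (T.erase k))) := by
  classical
  rcases (T.filter fun k => InCone A f (T.erase k)).eq_empty_or_nonempty with he | ⟨k0, hk0⟩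
  · rw [he]; simp
  rw [Finset.mem_filter] at hk0
  obtain ⟨hk0T, hk0c⟩ := hk0
  have hcard : ∀ k ∈ T, (T.erase k).card = d := fun k hk => by
    rw [Finset.card_erase_of_mem hk, hT]; rfl
  obtain ⟨x0, hx0p, hx00, hx0s⟩ := pos_of_inCone hf (hcard k0 hk0T) hk0c
  -- the relation, normalised
  obtain ⟨y, hy0, hys, hyk0⟩ : ∃ y : Fin m → ℝ, (∀ k, k ∉ T → y k = 0) ∧
      ∑ k, y k • A k = 0 ∧ 0 < y k0 := by
    obtain ⟨y, hy0, hys, l, hl⟩ := exists_dep A T hT
    have h1 : y k0 ≠ 0 := by
      intro h
      apply hl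
      refine dep_zero hf (hcard k0 hk0T) hx00 hx0s ?_ hys l
      intro k hk
      by_cases hkk : k = k0
      · rw [hkk, h]
      · apply hy0
        intro hkT
        exact hk (Finset.mem_erase.mpr ⟨hkk, hkT⟩)
    rcases lt_or_gt_of_ne h1 with h | h
    · refine ⟨fun k => - y k, fun k hk => by simp [hy0 k hk], ?_, by simpa using h⟩
      simp [neg_smul, hys]
    · exact ⟨y, hy0, hys, h⟩
  -- a negative coefficient
  have hN : (T.filter fun k => y k < 0).Nonempty := by
    by_contra hne
    rw [Finset.not_nonempty_iff_eq_empty, Finset.filter_eq_empty_iff] at hne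
    have h1 : ∑ k, y k * (A k ⬝ᵥ c) = 0 := by
      rw [← sum_smul_dot, hys, zero_dotProduct]
    have h2 : 0 < ∑ k, y k * (A k ⬝ᵥ c) := by
      apply Finset.sum_pos'
      · intro k _
        by_cases hk : k ∈ T
        · exact mul_nonneg (not_lt.mp (hne hk)) (hc k hk).le
        · rw [hy0 k hk, zero_mul]
      · exact ⟨k0, Finset.mem_univ _, mul_pos hyk0 (hc k0 hk0T)⟩
    linarith
  obtain ⟨k1, hk1, hmin⟩ := Finset.exists_min_image _ (fun k => x0 k / (- y k)) hN
  rw [Finset.mem_filter] at hk1
  obtain ⟨hk1T, hk1n⟩ := hk1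
  have hne : k0 ≠ k1 := by
    rintro rfl
    linarith
  have hx0nn : ∀ k, 0 ≤ x0 k := by
    intro k
    by_cases hk : k ∈ T.erase k0
    · exact (hx0p k hk).le
    · rw [hx00 k hk]
  have hx0T : ∀ k, k ∉ T → x0 k = 0 := fun k hk =>
    hx00 k (fun h => hk (Finset.mem_of_mem_erase h))
  set t1 := x0 k1 / (- y k1) with ht1
  have hk1e : k1 ∈ T.erase k0 := Finset.mem_erase.mpr ⟨hne.symm, hk1T⟩
  have ht1p : 0 < t1 := div_pos (hx0p k1 hk1e) (by linarith)
  have hk1c : InCone A f (T.erase k1) := by
    refine ⟨fun k => x0 k + t1 * y k, ?_, ?_, ?_⟩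
    · intro k
      by_cases hk : k ∈ T
      · by_cases hneg : y k < 0
        · have h1 := hmin k (Finset.mem_filter.mpr ⟨hk, hneg⟩)
          have h2 : 0 < - y k := by linarith
          rw [le_div_iff₀ h2] at h1
          simp only
          nlinarith
        · push Not at hneg
          have := mul_nonneg ht1p.le hneg
          have := hx0nn k
          simp only
          linarith
      · simp [hy0 k hk, hx0T k hk]
    · intro k hk
      by_cases hkk : k = k1
      · subst hkk
        simp only [ht1]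
        have : y k ≠ 0 := by linarith
        field_simp
        ring
      · have hkT : k ∉ T := fun h => hk (Finset.mem_erase.mpr ⟨hkk, h⟩)
        simp [hy0 k hkT, hx0T k hkT]
    · simp only [add_smul, Finset.sum_add_distrib, hx0s, mul_smul, ← Finset.smul_sum, hys,
        smul_zero, add_zero]
  have hset : (T.filter fun k => InCone A f (T.erase k)) = {k0, k1} := by
    ext k2
    rw [Finset.mem_filter, Finset.mem_insert, Finset.mem_singleton]
    constructor
    · rintro ⟨hk2T, hk2c⟩
      by_cases h20 : k2 = k0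
      · exact Or.inl h20
      right
      obtain ⟨x2, hx2p, hx20, hx2s⟩ := pos_of_inCone hf (hcard k2 hk2T) hk2c
      have hx2nn : ∀ k, 0 ≤ x2 k := by
        intro k
        by_cases hk : k ∈ T.erase k2
        · exact (hx2p k hk).le
        · rw [hx20 k hk]
      set t2 := x2 k0 / y k0 with ht2
      have hx0k0 : x0 k0 = 0 := hx00 k0 (by simp)
      have hz := dep_zero hf (hcard k0 hk0T) hx00 hx0s
        (y := fun k => x2 k - x0 k - t2 * y k) (by
          intro k hk
          by_cases hkk : k = k0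
          · subst hkk
            simp only [ht2, hx0k0]
            field_simp
            ring
          · have hkT : k ∉ T := fun h => hk (Finset.mem_erase.mpr ⟨hkk, h⟩)
            have h1 : x2 k = 0 := hx20 k (fun h => hkT (Finset.mem_of_mem_erase h))
            simp [hy0 k hkT, hx0T k hkT, h1])
        (by
          simp only [sub_smul, Finset.sum_sub_distrib, hx0s, hx2s, mul_smul, ← Finset.smul_sum,
            hys, smul_zero, sub_self])
      have h2 : x2 k2 = 0 := hx20 k2 (by simp)
      have hz2 := hz k2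
      have h02 : 0 < x0 k2 := hx0p k2 (Finset.mem_erase.mpr ⟨h20, hk2T⟩)
      have hk0e : k0 ∈ T.erase k2 := Finset.mem_erase.mpr ⟨fun h => h20 h.symm, hk0T⟩
      have ht2p : 0 < t2 := div_pos (hx2p k0 hk0e) hyk0
      simp only [h2] at hz2
      have hy2 : y k2 < 0 := by
        by_contra hcon
        push Not at hcon
        have := mul_nonneg ht2p.le hcon
        linarith
      have hm2 := hmin k2 (Finset.mem_filter.mpr ⟨hk2T, hy2⟩)
      have e2 : t2 = x0 k2 / (- y k2) := by
        rw [eq_div_iff (by linarith)]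
        linarith
      have h12 : t1 ≤ t2 := by rw [e2]; exact hm2
      have hz1 := hz k1
      by_contra hk21
      have hpos : 0 < x2 k1 := hx2p k1 (Finset.mem_erase.mpr ⟨fun h => hk21 h.symm, hk1T⟩)
      have e1 : x0 k1 = t1 * (- y k1) := by
        rw [ht1]
        have : y k1 ≠ 0 := by linarith
        field_simp
      have h3 : x2 k1 = (t2 - t1) * y k1 := by linear_combination hz1 + e1
      have h4 : (t2 - t1) * y k1 ≤ 0 := mul_nonpos_of_nonneg_of_nonpos (by linarith) hk1n.le
      linarith
    · rintro (h | h)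
      · rw [h]; exact ⟨hk0T, hk0c⟩
      · rw [h]; exact ⟨hk1T, hk1c⟩
  rw [hset, Finset.card_pair hne]
  exact even_two

end cones


/-! ### Parity of incidences -/

section parity

variable {m : ℕ}

/-- The ridges `R` (sets with `|R| + 1 = d`) contained in an odd number of members of `z`. -/
def odds (d : ℕ) (z : Finset (Finset (Fin m))) : Finset (Finset (Fin m)) :=
  Finset.univ.filter fun R => R.card + 1 = d ∧ Odd (Finset.card (z.filter fun B => R ⊆ B))

lemma card_ridges {d : ℕ} (B : Finset (Fin m)) (hB : B.card = d)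
    (q : Finset (Fin m) → Prop) [DecidablePred q] :
    Finset.card (Finset.univ.filter fun R : Finset (Fin m) => (R.card + 1 = d ∧ q R) ∧ R ⊆ B) =
      Finset.card (B.filter fun k => q (B.erase k)) := by
  symm
  apply Finset.card_bij (fun k _ => B.erase k)
  · intro k hk
    rw [Finset.mem_filter] at hk
    rw [Finset.mem_filter]
    refine ⟨Finset.mem_univ _, ⟨?_, hk.2⟩, Finset.erase_subset _ _⟩
    rw [Finset.card_erase_add_one hk.1, hB]
  · intro a ha b hb hab
    rw [Finset.mem_filter] at ha hb
    by_contra hne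
    have : a ∈ B.erase b := Finset.mem_erase.mpr ⟨hne, ha.1⟩
    rw [← hab] at this
    simp at this
  · intro R hR
    rw [Finset.mem_filter] at hR
    obtain ⟨-, ⟨hc, hq⟩, hRB⟩ := hR
    have h1 : (B \ R).card = 1 := by
      rw [Finset.card_sdiff_of_subset hRB]; omega
    obtain ⟨k, hk⟩ := Finset.card_eq_one.mp h1
    have hkB : k ∈ B \ R := by rw [hk]; simp
    rw [Finset.mem_sdiff] at hkB
    have h2 : B.erase k = R := by
      ext l
      rw [Finset.mem_erase]
      constructor
      · rintro ⟨hl, hlB⟩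
        by_contra hlR
        have : l ∈ B \ R := Finset.mem_sdiff.mpr ⟨hlB, hlR⟩
        rw [hk, Finset.mem_singleton] at this
        exact hl this
      · intro hl
        exact ⟨fun h => hkB.2 (h ▸ hl), hRB hl⟩
    exact ⟨k, Finset.mem_filter.mpr ⟨hkB.1, by rw [h2]; exact hq⟩, h2⟩

lemma odds_parity {d : ℕ} (z : Finset (Finset (Fin m))) (hz : ∀ B ∈ z, B.card = d)
    (q : Finset (Fin m) → Prop) [DecidablePred q] :
    Odd (Finset.card ((odds d z).filter q)) ↔
      Odd (∑ B ∈ z, Finset.card (B.filter fun k => q (B.erase k))) := by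
  set Q : Finset (Finset (Fin m)) := Finset.univ.filter fun R => R.card + 1 = d ∧ q R with hQ
  have h1 : (odds d z).filter q = Q.filter fun R => Odd (Finset.card (z.filter fun B => R ⊆ B)) := by
    ext R
    simp only [odds, hQ, Finset.mem_filter, Finset.mem_univ, true_and]
    tauto
  rw [h1, ← Finset.odd_sum_iff_odd_card_odd]
  have h2 : ∑ R ∈ Q, Finset.card (z.filter fun B => R ⊆ B) =
      ∑ B ∈ z, Finset.card (Q.filter fun R => R ⊆ B) := by
    simp only [Finset.card_filter]
    exact Finset.sum_comm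
  rw [h2]
  have h3 : ∀ B ∈ z, Finset.card (Q.filter fun R => R ⊆ B) =
      Finset.card (B.filter fun k => q (B.erase k)) := by
    intro B hB
    rw [← card_ridges B (hz B hB) q, hQ, Finset.filter_filter]
  rw [Finset.sum_congr rfl h3]

end parity


/-! ### The new cycle -/

section cycle

variable {d m : ℕ}

/-- the new cycle `z_- ∪ {R ∪ {i} : R ∈ ∂ z_-}` -/
def newCycle (d : ℕ) (i : Fin m) (zm : Finset (Finset (Fin m))) : Finset (Finset (Fin m)) :=
  zm ∪ (odds d zm).image (insert i)

lemma notMem_of_mem_odds {i : Fin m} {zm : Finset (Finset (Fin m))} (hi : ∀ B ∈ zm, i ∉ B)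
    {R : Finset (Fin m)} (hR : R ∈ odds d zm) : i ∉ R ∧ ∃ B ∈ zm, R ⊆ B := by
  rw [odds, Finset.mem_filter] at hR
  obtain ⟨B, hB⟩ := Finset.card_pos.mp hR.2.2.pos
  rw [Finset.mem_filter] at hB
  exact ⟨fun h => hi B hB.1 (hB.2 h), B, hB.1, hB.2⟩

lemma card_newCycle {i : Fin m} {zm : Finset (Finset (Fin m))} (hi : ∀ B ∈ zm, i ∉ B)
    (q : Finset (Fin m) → Prop) [DecidablePred q] :
    Finset.card ((newCycle d i zm).filter q) = Finset.card (zm.filter q) +
      Finset.card ((odds d zm).filter fun R => q (insert i R)) := by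
  rw [newCycle, Finset.filter_union, Finset.card_union_of_disjoint]
  · congr 1
    rw [Finset.filter_image, Finset.card_image_of_injOn]
    intro R hR R' hR' hRR
    rw [Finset.mem_coe, Finset.mem_filter] at hR hR'
    have h1 := (notMem_of_mem_odds hi hR.1).1
    have h2 := (notMem_of_mem_odds hi hR'.1).1
    rw [← Finset.erase_insert h1, hRR, Finset.erase_insert h2]
  · rw [Finset.disjoint_left]
    intro B hB hB'
    rw [Finset.mem_filter] at hB hB'
    obtain ⟨R, hR, rfl⟩ := Finset.mem_image.mp hB'.1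
    exact hi _ hB.1 (Finset.mem_insert_self _ _)

lemma bdry_newCycle (hd : 2 ≤ d) {i : Fin m} {zm : Finset (Finset (Fin m))}
    (hc : ∀ B ∈ zm, B.card = d) (hi : ∀ B ∈ zm, i ∉ B) (R : Finset (Fin m))
    (hR : R.card + 1 = d) :
    Even (Finset.card ((newCycle d i zm).filter fun B => R ⊆ B)) := by
  classical
  rw [card_newCycle hi]
  by_cases hiR : i ∈ R
  · -- `R = insert i Q`
    have h1 : (zm.filter fun B => R ⊆ B) = ∅ := by
      rw [Finset.filter_eq_empty_iff]
      intro B hB hRB
      exact hi B hB (hRB hiR)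
    rw [h1, Finset.card_empty, zero_add, ← Nat.not_odd_iff_even]
    have h2 : ((odds d zm).filter fun S => R ⊆ insert i S) =
        (odds d zm).filter fun S => R.erase i ⊆ S := by
      apply Finset.filter_congr
      intro S hS
      rw [Finset.subset_insert_iff]
    rw [h2, odds_parity zm hc, Nat.not_odd_iff_even]
    apply Finset.even_sum
    intro B hB
    by_cases hQB : R.erase i ⊆ B
    · have h3 : (B.filter fun k => R.erase i ⊆ B.erase k) = B \ R.erase i := by
        ext k
        rw [Finset.mem_filter, Finset.mem_sdiff]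
        constructor
        · rintro ⟨hk, h⟩
          exact ⟨hk, fun h' => by simpa using h h'⟩
        · rintro ⟨hk, h⟩
          refine ⟨hk, fun l hl => Finset.mem_erase.mpr ⟨?_, hQB hl⟩⟩
          rintro rfl
          exact h hl
      rw [h3, Finset.card_sdiff_of_subset hQB, hc B hB, Finset.card_erase_of_mem hiR]
      have : d - (R.card - 1) = 2 := by omega
      rw [this]
      exact even_two
    · have h3 : (B.filter fun k => R.erase i ⊆ B.erase k) = ∅ := by
        rw [Finset.filter_eq_empty_iff]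
        intro k _ h
        exact hQB (h.trans (Finset.erase_subset _ _))
      rw [h3]
      simp
  · -- only `R` itself
    have h2 : ((odds d zm).filter fun S => R ⊆ insert i S) =
        (odds d zm).filter fun S => S = R := by
      apply Finset.filter_congr
      intro S hS
      rw [odds, Finset.mem_filter] at hS
      constructor
      · intro h
        have h3 : R ⊆ S := by
          intro l hl
          rcases Finset.mem_insert.mp (h hl) with h4 | h4
          · exact absurd (h4 ▸ hl) hiR
          · exact h4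
        exact (Finset.eq_of_subset_of_card_le h3 (by omega)).symm
      · rintro rfl
        exact Finset.subset_insert _ _
    rw [h2, Finset.filter_eq']
    by_cases hodd : Odd (Finset.card (zm.filter fun B => R ⊆ B))
    · have : R ∈ odds d zm := Finset.mem_filter.mpr ⟨Finset.mem_univ _, hR, hodd⟩
      rw [if_pos this, Finset.card_singleton]
      exact hodd.add_one
    · have : R ∉ odds d zm := fun h => hodd (Finset.mem_filter.mp h).2.2
      rw [if_neg this, Finset.card_empty, add_zero]
      exact Nat.not_odd_iff_even.mp hodd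

lemma odds_eq {z zm zp : Finset (Finset (Fin m))} (hu : z = zm ∪ zp) (hdis : Disjoint zm zp)
    (hb : ∀ R : Finset (Fin m), R.card + 1 = d →
      Even (Finset.card (z.filter fun B => R ⊆ B))) : odds d zm = odds d zp := by
  unfold odds
  apply Finset.filter_congr
  intro R _
  apply and_congr_right
  intro hR
  have h1 := hb R hR
  rw [hu, Finset.filter_union, Finset.card_union_of_disjoint
    (Finset.disjoint_filter_filter hdis), Nat.even_add] at h1
  rw [← Nat.not_even_iff_odd, ← Nat.not_even_iff_odd, h1]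

open Classical in
lemma odd_newCycle {A : Fin m → Fin d → ℝ} {i : Fin m}
    {z zm zp : Finset (Finset (Fin m))} (hu : z = zm ∪ zp) (hdis : Disjoint zm zp)
    (hb : ∀ R : Finset (Fin m), R.card + 1 = d →
      Even (Finset.card (z.filter fun B => R ⊆ B)))
    (hc : ∀ B ∈ z, B.card = d) (hi : ∀ B ∈ z, i ∉ B)
    (hh : ∀ B ∈ zp, ∃ c : Fin d → ℝ, ∀ k ∈ insert i B, 0 < A k ⬝ᵥ c)
    {f : Fin d → ℝ} (hf : Gen A f)
    (hodd : Odd (Finset.card (z.filter fun B => InCone A f B))) :
    Odd (Finset.card ((newCycle d i zm).filter fun B => InCone A f B)) := by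
  have him : ∀ B ∈ zm, i ∉ B := fun B hB => hi B (by rw [hu]; exact Finset.mem_union_left _ hB)
  have hip : ∀ B ∈ zp, i ∉ B := fun B hB => hi B (by rw [hu]; exact Finset.mem_union_right _ hB)
  have hcp : ∀ B ∈ zp, B.card = d := fun B hB =>
    hc B (by rw [hu]; exact Finset.mem_union_right _ hB)
  rw [card_newCycle him, odds_eq hu hdis hb]
  rw [hu, Finset.filter_union, Finset.card_union_of_disjoint
    (Finset.disjoint_filter_filter hdis)] at hodd
  have key : Odd (Finset.card ((odds d zp).filter fun R => InCone A f (insert i R))) ↔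
      Odd (Finset.card (zp.filter fun B => InCone A f B)) := by
    rw [odds_parity zp hcp]
    have h1 : ∀ B ∈ zp, Even (Finset.card (B.filter fun k => InCone A f (insert i (B.erase k))) +
        if InCone A f B then 1 else 0) := by
      intro B hB
      obtain ⟨c, hcpos⟩ := hh B hB
      have h2 := even_cone hf (insert i B)
        (by rw [Finset.card_insert_of_notMem (hip B hB), hcp B hB]) c hcpos
      rw [Finset.filter_insert] at h2
      have h3 : (B.filter fun k => InCone A f ((insert i B).erase k)) =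
          B.filter fun k => InCone A f (insert i (B.erase k)) := by
        apply Finset.filter_congr
        intro k hk
        rw [Finset.erase_insert_of_ne (fun h => hip B hB (by rw [h]; exact hk))]
      rw [h3, Finset.erase_insert (hip B hB)] at h2
      by_cases hfB : InCone A f B
      · rw [if_pos hfB] at h2 ⊢
        rwa [Finset.card_insert_of_notMem (fun h => hip B hB (Finset.mem_filter.mp h).1)] at h2
      · rw [if_neg hfB] at h2 ⊢
        simpa using h2
    have h4 := Finset.even_sum (s := zp) _ h1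
    rw [Finset.sum_add_distrib, ← Finset.card_filter, Nat.even_add] at h4
    rw [← Nat.not_even_iff_odd, ← Nat.not_even_iff_odd, h4]
  rw [Nat.odd_add] at hodd ⊢
  rw [hodd, ← Nat.not_odd_iff_even, ← Nat.not_odd_iff_even, key]

end cycle


/-! ### Density of the generic functionals and the covering of `P` -/

section generic

variable {d m : ℕ}

lemma dense_gen (A : Fin m → Fin d → ℝ) : Dense {f : Fin d → ℝ | Gen A f} := by
  classical
  have h1 : ∀ T : Finset (Fin m), T.card < d →
      ∀ᵐ f : Fin d → ℝ, f ∉ Submodule.span ℝ (A '' (T : Set (Fin m))) := by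
    intro T hT
    have h2 : Submodule.span ℝ (A '' (T : Set (Fin m))) ≠ ⊤ := by
      intro htop
      have h3 : Module.finrank ℝ (Submodule.span ℝ (A '' (T : Set (Fin m)))) ≤ T.card := by
        have := finrank_span_finset_le_card (R := ℝ) (T.image A)
        rw [Finset.coe_image] at this
        exact this.trans Finset.card_image_le
      rw [htop, finrank_top, Module.finrank_fintype_fun_eq_card, Fintype.card_fin] at h3
      omega
    have h3 := MeasureTheory.Measure.addHaar_submodule MeasureTheory.volume _ h2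
    exact MeasureTheory.measure_eq_zero_iff_ae_notMem.mp h3
  have h2 : ∀ᵐ f : Fin d → ℝ, Gen A f := by
    have h3 : ∀ᵐ f : Fin d → ℝ, ∀ T : Finset (Fin m), T.card < d →
        f ∉ Submodule.span ℝ (A '' (T : Set (Fin m))) := by
      rw [MeasureTheory.ae_all_iff]
      intro T
      by_cases hT : T.card < d
      · filter_upwards [h1 T hT] with f hf _ using hf
      · exact Filter.Eventually.of_forall fun f h => absurd h hT
    filter_upwards [h3] with f hf x hx
    by_contra hcon
    push Not at hcon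
    apply hf _ hcon
    rw [← hx]
    have h4 : ∑ k, x k • A k = ∑ k ∈ (Finset.univ.filter fun k => x k ≠ 0), x k • A k := by
      symm
      apply Finset.sum_subset (Finset.subset_univ _)
      intro k _ hk
      rw [Finset.mem_filter] at hk
      push Not at hk
      rw [hk (Finset.mem_univ _), zero_smul]
    rw [h4]
    apply Submodule.sum_mem
    intro k hk
    apply Submodule.smul_mem
    exact Submodule.subset_span ⟨k, by exact_mod_cast hk, rfl⟩
  exact MeasureTheory.Measure.dense_of_ae h2

/-- If `y` is not separated from the points `c v` by a generic functional then it lies in their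
convex hull. -/
lemma mem_convexHull_of_generic {V : Type} [Finite V] (A : Fin m → Fin d → ℝ)
    (c : V → Fin d → ℝ) (y : Fin d → ℝ)
    (h : ∀ f : Fin d → ℝ, Gen A f → ∃ v, f ⬝ᵥ y ≤ f ⬝ᵥ c v) :
    y ∈ convexHull ℝ (Set.range c) := by
  classical
  haveI := Fintype.ofFinite V
  by_contra hy
  have hcl : IsClosed (convexHull ℝ (Set.range c)) :=
    ((Set.finite_range c).isCompact_convexHull ℝ).isClosed
  obtain ⟨g, u, hg1, hg2⟩ := geometric_hahn_banach_closed_point
    (convex_convexHull ℝ (Set.range c)) hcl hy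
  set f0 : Fin d → ℝ := fun j => g (Pi.single j 1) with hf0
  have hrep : ∀ x : Fin d → ℝ, g x = f0 ⬝ᵥ x := by
    intro x
    have h1 := LinearMap.pi_apply_eq_sum_univ (g : (Fin d → ℝ) →ₗ[ℝ] ℝ) x
    simp only [ContinuousLinearMap.coe_coe, smul_eq_mul] at h1
    rw [h1, dotProduct]
    apply Finset.sum_congr rfl
    intro j _
    rw [hf0, mul_comm]
    congr 2
    ext l
    simp [Pi.single_apply, eq_comm]
  -- the open set of functionals which separate strictly
  have hopen : IsOpen {f : Fin d → ℝ | ∀ v, f ⬝ᵥ c v < f ⬝ᵥ y} := by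
    rw [Set.setOf_forall]
    apply isOpen_iInter_of_finite
    intro v
    apply isOpen_lt
    · unfold dotProduct; fun_prop
    · unfold dotProduct; fun_prop
  have hmem : f0 ∈ {f : Fin d → ℝ | ∀ v, f ⬝ᵥ c v < f ⬝ᵥ y} := by
    intro v
    rw [← hrep, ← hrep]
    exact (hg1 _ (subset_convexHull ℝ _ ⟨v, rfl⟩)).trans hg2
  obtain ⟨f, hf1, hf2⟩ := (dense_gen A).inter_open_nonempty _ hopen ⟨f0, hmem⟩
  obtain ⟨v, hv⟩ := h f hf2
  exact absurd (hf1 v) (not_lt.mpr hv)

end generic


/-! ### The start -/

section start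

variable {d m : ℕ}

lemma no_ray {A : Fin m → Fin d → ℝ} (hS : IsSimplex (firstSet A)) {x : Fin d → ℝ}
    (hx : ∀ k : Fin m, (k : ℕ) < d + 1 → A k ⬝ᵥ x ≤ 0) : x = 0 := by
  obtain ⟨p, -, hp⟩ := hS
  have hb : Bornology.IsBounded (firstSet A) := by
    rw [hp]
    exact ((Set.finite_range p).isCompact_convexHull ℝ).isBounded
  obtain ⟨C, hC⟩ := hb.exists_norm_le
  by_contra hne
  have hn : 0 < ‖x‖ := norm_pos_iff.mpr hne
  have h1 : ∀ t : ℝ, 0 ≤ t → t * ‖x‖ ≤ C := by
    intro t ht
    have h2 : t • x ∈ firstSet A := by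
      intro k hk
      rw [dotProduct_smul, smul_eq_mul]
      have := mul_nonpos_of_nonneg_of_nonpos ht (hx k hk)
      linarith
    have := hC _ h2
    rwa [norm_smul, Real.norm_of_nonneg ht] at this
  have h3 := h1 ((|C| + 1) / ‖x‖) (by positivity)
  rw [div_mul_cancel₀ _ hn.ne'] at h3
  have := le_abs_self C
  linarith

/-- prescribed values on `d` rows -/
lemma exists_values {A : Fin m → Fin d → ℝ} {F : Finset (Fin m)} (hF : F.card = d + 1)
    (hray : ∀ x : Fin d → ℝ, (∀ k ∈ F, A k ⬝ᵥ x ≤ 0) → x = 0) {j : Fin m} (hj : j ∈ F)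
    (b : Fin m → ℝ) : ∃ x : Fin d → ℝ, ∀ k ∈ F.erase j, A k ⬝ᵥ x = b k := by
  classical
  let L : (Fin d → ℝ) →ₗ[ℝ] ({k // k ∈ F.erase j} → ℝ) :=
    { toFun := fun x k => A k ⬝ᵥ x
      map_add' := fun x y => by ext k; simp [dotProduct_add]
      map_smul' := fun t x => by ext k; simp [dotProduct_smul] }
  have hinj : Function.Injective L := by
    rw [injective_iff_map_eq_zero]
    intro x hx
    have h1 : ∀ k ∈ F.erase j, A k ⬝ᵥ x = 0 := fun k hk => congrFun hx ⟨k, hk⟩
    rcases le_total (A j ⬝ᵥ x) 0 with h | h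
    · apply hray
      intro k hk
      by_cases hkj : k = j
      · rw [hkj]; exact h
      · exact (h1 k (Finset.mem_erase.mpr ⟨hkj, hk⟩)).le
    · have : -x = 0 := by
        apply hray
        intro k hk
        rw [dotProduct_neg]
        by_cases hkj : k = j
        · rw [hkj]; linarith
        · rw [h1 k (Finset.mem_erase.mpr ⟨hkj, hk⟩)]; simp
      simpa using this
  have hsurj : Function.Surjective L := by
    rw [← LinearMap.injective_iff_surjective_of_finrank_eq_finrank]
    · exact hinj
    · rw [Module.finrank_fintype_fun_eq_card, Module.finrank_fintype_fun_eq_card,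
        Fintype.card_fin, Fintype.card_coe, Finset.card_erase_of_mem hj, hF]
      rfl
  obtain ⟨x, hx⟩ := hsurj (fun k => b k)
  exact ⟨x, fun k hk => congrFun hx ⟨k, hk⟩⟩

lemma indep_erase {A : Fin m → Fin d → ℝ} {F : Finset (Fin m)} (hF : F.card = d + 1)
    (hray : ∀ x : Fin d → ℝ, (∀ k ∈ F, A k ⬝ᵥ x ≤ 0) → x = 0) {j : Fin m} (hj : j ∈ F)
    {y : Fin m → ℝ} (hy0 : ∀ k, k ∉ F.erase j → y k = 0) (hy : ∑ k, y k • A k = 0) :
    ∀ k, y k = 0 := by
  classical
  intro l
  by_cases hl : l ∈ F.erase j
  · obtain ⟨x, hx⟩ := exists_values hF hray hj (fun k => if k = l then 1 else 0)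
    have h1 : ∑ k, y k * (A k ⬝ᵥ x) = 0 := by rw [← sum_smul_dot, hy, zero_dotProduct]
    rw [Finset.sum_eq_single l] at h1
    · rw [hx l hl] at h1
      simpa using h1
    · intro k _ hkl
      by_cases hk : k ∈ F.erase j
      · rw [hx k hk, if_neg hkl, mul_zero]
      · rw [hy0 k hk, zero_mul]
    · intro h; exact absurd (Finset.mem_univ _) h
  · exact hy0 l hl

lemma exists_pos_dep {A : Fin m → Fin d → ℝ} {F : Finset (Fin m)} (hF : F.card = d + 1)
    (hray : ∀ x : Fin d → ℝ, (∀ k ∈ F, A k ⬝ᵥ x ≤ 0) → x = 0) :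
    ∃ μ : Fin m → ℝ, (∀ k ∈ F, 0 < μ k) ∧ (∀ k, k ∉ F → μ k = 0) ∧ ∑ k, μ k • A k = 0 := by
  classical
  obtain ⟨y, hy0, hys, l, hl⟩ := exists_dep A F hF
  have hne : ∀ j ∈ F, y j ≠ 0 := by
    intro j hj h
    apply hl
    apply indep_erase hF hray hj _ hys
    intro k hk
    by_cases hkj : k = j
    · rw [hkj, h]
    · exact hy0 k (fun h' => hk (Finset.mem_erase.mpr ⟨hkj, h'⟩))
  have hsign : ∀ a ∈ F, ∀ b ∈ F, ¬ (0 < y a ∧ y b < 0) := by
    rintro a ha b hb ⟨h1, h2⟩
    have hab : b ≠ a := by rintro rfl; linarith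
    obtain ⟨x, hx⟩ := exists_values hF hray ha (fun k => if k = b then -1 else 0)
    have h3 : ∑ k, y k * (A k ⬝ᵥ x) = 0 := by rw [← sum_smul_dot, hys, zero_dotProduct]
    have h4 : ∑ k, y k * (A k ⬝ᵥ x) = y a * (A a ⬝ᵥ x) + y b * (A b ⬝ᵥ x) := by
      rw [← Finset.sum_subset (Finset.subset_univ {a, b})]
      · rw [Finset.sum_pair hab.symm]
      · intro k _ hk
        rw [Finset.mem_insert, Finset.mem_singleton] at hk
        push Not at hk
        by_cases hkF : k ∈ F
        · rw [hx k (Finset.mem_erase.mpr ⟨hk.1, hkF⟩), if_neg hk.2, mul_zero]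
        · rw [hy0 k hkF, zero_mul]
    have hxb : A b ⬝ᵥ x = -1 := by
      rw [hx b (Finset.mem_erase.mpr ⟨hab, hb⟩), if_pos rfl]
    have hxa : A a ⬝ᵥ x ≤ 0 := by
      rw [h4, hxb] at h3
      by_contra hcon
      push Not at hcon
      have := mul_pos h1 hcon
      linarith
    have hx0 : x = 0 := by
      apply hray
      intro k hk
      by_cases hka : k = a
      · rw [hka]; exact hxa
      · rw [hx k (Finset.mem_erase.mpr ⟨hka, hk⟩)]
        split_ifs <;> norm_num
    rw [hx0, dotProduct_zero] at hxb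
    norm_num at hxb
  have hlF : l ∈ F := by
    by_contra h
    exact hl (hy0 l h)
  rcases lt_or_gt_of_ne hl with h | h
  · refine ⟨fun k => - y k, ?_, fun k hk => by simp [hy0 k hk], by simp [neg_smul, hys]⟩
    intro k hk
    have := hsign k hk l hlF
    have h2 := hne k hk
    push Not at this
    have h3 : y k < 0 := by
      by_contra hcon
      push Not at hcon
      have h4 := this (lt_of_le_of_ne hcon (Ne.symm h2))
      linarith
    simpa using h3
  · refine ⟨y, ?_, hy0, hys⟩
    intro k hk
    have := hsign l hlF k hk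
    have h2 := hne k hk
    push Not at this
    exact lt_of_le_of_ne (this h) (Ne.symm h2)

lemma exists_rep {A : Fin m → Fin d → ℝ} {F : Finset (Fin m)} (hF : F.card = d + 1)
    (hray : ∀ x : Fin d → ℝ, (∀ k ∈ F, A k ⬝ᵥ x ≤ 0) → x = 0) (f : Fin d → ℝ) :
    ∃ y : Fin m → ℝ, (∀ k, k ∉ F → y k = 0) ∧ ∑ k, y k • A k = f := by
  classical
  obtain ⟨j, hj⟩ : F.Nonempty := Finset.card_pos.mp (by omega)
  let L : ({k // k ∈ F.erase j} → ℝ) →ₗ[ℝ] (Fin d → ℝ) :=
    { toFun := fun y => ∑ k : {k // k ∈ F.erase j}, y k • A k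
      map_add' := fun x y => by simp [add_smul, Finset.sum_add_distrib]
      map_smul' := fun t x => by simp [mul_smul, Finset.smul_sum] }
  have hL : ∀ y : {k // k ∈ F.erase j} → ℝ,
      ∑ k, (if h : k ∈ F.erase j then y ⟨k, h⟩ else 0) • A k = L y := by
    intro y
    change _ = ∑ k : {k // k ∈ F.erase j}, y k • A k
    rw [← Finset.sum_subset (Finset.subset_univ (F.erase j)), ← Finset.sum_coe_sort (F.erase j)]
    · apply Finset.sum_congr rfl
      intro k _
      simp
    · intro k _ hk
      rw [dif_neg hk, zero_smul]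
  have hinj : Function.Injective L := by
    rw [injective_iff_map_eq_zero]
    intro y hy
    ext k
    have h1 := indep_erase hF hray hj
      (y := fun k => if h : k ∈ F.erase j then y ⟨k, h⟩ else 0)
      (fun k hk => by rw [dif_neg hk]) (by rw [hL, hy]) k.1
    rw [dif_pos k.2] at h1
    simpa using h1
  have hsurj : Function.Surjective L := by
    rw [← LinearMap.injective_iff_surjective_of_finrank_eq_finrank]
    · exact hinj
    · rw [Module.finrank_fintype_fun_eq_card, Module.finrank_fintype_fun_eq_card,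
        Fintype.card_fin, Fintype.card_coe, Finset.card_erase_of_mem hj, hF]
      rfl
  obtain ⟨y, hy⟩ := hsurj f
  refine ⟨fun k => if h : k ∈ F.erase j then y ⟨k, h⟩ else 0, ?_, by rw [hL, hy]⟩
  intro k hk
  exact dif_neg (fun h => hk (Finset.mem_of_mem_erase h))

open Classical in
lemma odd_start {A : Fin m → Fin d → ℝ} {F : Finset (Fin m)} (hF : F.card = d + 1)
    (hray : ∀ x : Fin d → ℝ, (∀ k ∈ F, A k ⬝ᵥ x ≤ 0) → x = 0) {f : Fin d → ℝ}
    (hf : Gen A f) : Odd (Finset.card (F.filter fun k => InCone A f (F.erase k))) := by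
  obtain ⟨μ, hμ, hμ0, hμs⟩ := exists_pos_dep hF hray
  obtain ⟨y, hy0, hys⟩ := exists_rep hF hray f
  have hFne : F.Nonempty := Finset.card_pos.mp (by omega)
  have hcard : ∀ k ∈ F, (F.erase k).card = d := fun k hk => by
    rw [Finset.card_erase_of_mem hk, hF]; rfl
  obtain ⟨j0, hj0, hmin⟩ := Finset.exists_min_image F (fun k => y k / μ k) hFne
  set t := y j0 / μ j0 with ht
  have hj0c : InCone A f (F.erase j0) := by
    refine ⟨fun k => y k - t * μ k, ?_, ?_, ?_⟩
    · intro k
      by_cases hk : k ∈ F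
      · have h1 := hmin k hk
        have h2 := hμ k hk
        rw [le_div_iff₀ h2] at h1
        simp only
        linarith
      · simp [hy0 k hk, hμ0 k hk]
    · intro k hk
      by_cases hkj : k = j0
      · subst hkj
        have := (hμ k hj0).ne'
        simp only [ht]
        field_simp
        ring
      · have hkF : k ∉ F := fun h => hk (Finset.mem_erase.mpr ⟨hkj, h⟩)
        simp [hy0 k hkF, hμ0 k hkF]
    · simp only [sub_smul, Finset.sum_sub_distrib, hys, mul_smul, ← Finset.smul_sum, hμs,
        smul_zero, sub_zero]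
  obtain ⟨x0, hx0p, hx00, hx0s⟩ := pos_of_inCone hf (hcard j0 hj0) hj0c
  have hset : (F.filter fun k => InCone A f (F.erase k)) = {j0} := by
    ext j2
    rw [Finset.mem_filter, Finset.mem_singleton]
    constructor
    · rintro ⟨hj2, hj2c⟩
      by_contra hne
      obtain ⟨x2, hx2p, hx20, hx2s⟩ := hj2c
      have hμj : 0 < μ j0 := hμ j0 hj0
      have hz := indep_erase hF hray hj0
        (y := fun k => x2 k - x0 k - (x2 j0 / μ j0) * μ k) (by
          intro k hk
          by_cases hkk : k = j0
          · subst hkk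
            simp only [hx00 k (by simp)]
            field_simp
            ring
          · have hkF : k ∉ F := fun h => hk (Finset.mem_erase.mpr ⟨hkk, h⟩)
            have h1 : x2 k = 0 := hx20 k (fun h => hkF (Finset.mem_of_mem_erase h))
            have h2 : x0 k = 0 := hx00 k (fun h => hkF (Finset.mem_of_mem_erase h))
            simp [hμ0 k hkF, h1, h2])
        (by
          simp only [sub_smul, Finset.sum_sub_distrib, hx0s, hx2s, mul_smul, ← Finset.smul_sum,
            hμs, smul_zero, sub_self]) j2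
      have h3 : x2 j2 = 0 := hx20 j2 (by simp)
      have h4 : 0 < x0 j2 := hx0p j2 (Finset.mem_erase.mpr ⟨hne, hj2⟩)
      have h5 : 0 ≤ (x2 j0 / μ j0) * μ j2 :=
        mul_nonneg (div_nonneg (hx2p j0) hμj.le) (hμ j2 hj2).le
      simp only [h3] at hz
      linarith
    · rintro rfl
      exact ⟨hj0, hj0c⟩
  rw [hset, Finset.card_singleton]
  exact odd_one

end start


/-! ### The invariant -/

section invariant

variable {d m : ℕ}

open Classical in
/-- the index sets of the nodes carry a mod-2 cycle of odd degree -/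
structure Cyc (A : Fin m → Fin d → ℝ) (s : State d m) (z : Finset (Finset (Fin m))) : Prop where
  sub : ∀ B ∈ z, B.card = d ∧ ∃ v, B ⊆ s.I v
  bdry : ∀ R : Finset (Fin m), R.card + 1 = d →
    Even (Finset.card (z.filter fun B => R ⊆ B))
  odd : ∀ f, Gen A f → Odd (Finset.card (z.filter fun B => InCone A f B))

structure Inv (A : Fin m → Fin d → ℝ) (ε : ℝ) (n : ℕ) (s : State d m) : Prop where
  lt : ∀ v, ∀ k ∈ s.I v, (k : ℕ) < n
  ge : ∀ v, ∀ k ∈ s.I v, 1 ≤ A k ⬝ᵥ s.c v
  le : ∀ v, ∀ k : Fin m, (k : ℕ) < n → A k ⬝ᵥ s.c v ≤ 1 + ε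
  adj : ∀ u w, u ≠ w → d - 1 ≤ (s.I u ∩ s.I w).card → s.G.Adj u w
  cyc : ∃ z, Cyc A s z

lemma card_first (hm : d + 1 ≤ m) :
    (Finset.univ.filter fun k : Fin m => (k : ℕ) < d + 1).card = d + 1 := by
  have h1 : (Finset.univ.filter fun k : Fin m => (k : ℕ) < d + 1) =
      Finset.univ.map (Fin.castLEEmb hm) := by
    ext k
    rw [Finset.mem_filter, Finset.mem_map]
    constructor
    · rintro ⟨-, hk⟩
      exact ⟨⟨k, hk⟩, Finset.mem_univ _, rfl⟩
    · rintro ⟨j, -, rfl⟩
      exact ⟨Finset.mem_univ _, j.2⟩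
  rw [h1, Finset.card_map, Finset.card_univ, Fintype.card_fin]

lemma exists_start {A : Fin m → Fin d → ℝ} {ε : ℝ} (hA : Admissible A ε) :
    ∃ s, IsStart A ε s := by
  have hray : ∀ x : Fin d → ℝ, (∀ k ∈ (Finset.univ.filter fun k : Fin m => (k : ℕ) < d + 1),
      A k ⬝ᵥ x ≤ 0) → x = 0 := by
    intro x hx
    apply no_ray hA.simplex
    intro k hk
    exact hx k (Finset.mem_filter.mpr ⟨Finset.mem_univ _, hk⟩)
  have h1 : ∀ j : Fin (d + 1), ∃ x : Fin d → ℝ, ∀ k : Fin m, (k : ℕ) < d + 1 → (k : ℕ) ≠ j →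
      A k ⬝ᵥ x = 1 + ε / 2 := by
    intro j
    obtain ⟨x, hx⟩ := exists_values (card_first hA.le_m) hray
      (j := ⟨j, lt_of_lt_of_le j.2 hA.le_m⟩)
      (Finset.mem_filter.mpr ⟨Finset.mem_univ _, j.2⟩) (fun _ => 1 + ε / 2)
    refine ⟨x, fun k hk hkj => hx k ?_⟩
    rw [Finset.mem_erase, Finset.mem_filter]
    exact ⟨fun h => hkj (by rw [h]), Finset.mem_univ _, hk⟩
  choose c hc using h1
  exact ⟨_, c, hc, rfl⟩

lemma inv_start {A : Fin m → Fin d → ℝ} {ε : ℝ} (hA : Admissible A ε) (s : State d m)
    (hs : IsStart A ε s) : Inv A ε (d + 1) s := by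
  classical
  obtain ⟨c, hc, rfl⟩ := hs
  have hε := hA.eps_nonneg
  set F : Finset (Fin m) := Finset.univ.filter fun k : Fin m => (k : ℕ) < d + 1 with hFdef
  have hF : F.card = d + 1 := card_first hA.le_m
  have hray : ∀ x : Fin d → ℝ, (∀ k ∈ F, A k ⬝ᵥ x ≤ 0) → x = 0 := by
    intro x hx
    apply no_ray hA.simplex
    intro k hk
    exact hx k (Finset.mem_filter.mpr ⟨Finset.mem_univ _, hk⟩)
  have hI : ∀ (j : Fin (d + 1)) (k : Fin m),
      k ∈ (Finset.univ.filter fun k : Fin m => (k : ℕ) < d + 1 ∧ (k : ℕ) ≠ j) ↔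
        ((k : ℕ) < d + 1 ∧ (k : ℕ) ≠ j) := fun j k => by simp
  have herase : ∀ j : Fin (d + 1),
      F.erase ⟨j, lt_of_lt_of_le j.2 hA.le_m⟩ =
        (Finset.univ.filter fun k : Fin m => (k : ℕ) < d + 1 ∧ (k : ℕ) ≠ j) := by
    intro j
    ext k
    rw [hI, Finset.mem_erase, hFdef, Finset.mem_filter]
    constructor
    · rintro ⟨h1, -, h2⟩
      exact ⟨h2, fun h => h1 (Fin.ext h)⟩
    · rintro ⟨h1, h2⟩
      exact ⟨fun h => h2 (by rw [h]), Finset.mem_univ _, h1⟩
  refine ⟨?_, ?_, ?_, ?_, ?_⟩
  · intro v k hk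
    exact ((hI v k).mp hk).1
  · intro v k hk
    rw [hc v k ((hI v k).mp hk).1 ((hI v k).mp hk).2]
    linarith
  · -- `A_k c(v_j) ≤ 1 + ε` also for `k = j`
    intro v k hk
    by_cases hkv : (k : ℕ) = v
    · -- use the positive relation
      obtain ⟨μ, hμ, hμ0, hμs⟩ := exists_pos_dep hF hray
      have h1 : ∑ l, μ l * (A l ⬝ᵥ c v) = 0 := by rw [← sum_smul_dot, hμs, zero_dotProduct]
      have hkF : k ∈ F := Finset.mem_filter.mpr ⟨Finset.mem_univ _, hk⟩
      have h2 : 0 ≤ ∑ l ∈ Finset.univ.erase k, μ l * (A l ⬝ᵥ c v) := by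
        apply Finset.sum_nonneg
        intro l hl
        rw [Finset.mem_erase] at hl
        by_cases hlF : l ∈ F
        · have h3 : (l : ℕ) ≠ v := fun h => hl.1 (Fin.ext (h.trans hkv.symm))
          rw [hc v l (Finset.mem_filter.mp hlF).2 h3]
          exact mul_nonneg (hμ l hlF).le (by linarith)
        · rw [hμ0 l hlF, zero_mul]
      rw [← Finset.add_sum_erase _ _ (Finset.mem_univ k)] at h1
      have h3 : μ k * (A k ⬝ᵥ c v) ≤ 0 := by linarith
      have h4 : A k ⬝ᵥ c v ≤ 0 := by
        by_contra hcon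
        push Not at hcon
        have := mul_pos (hμ k hkF) hcon
        linarith
      change A k ⬝ᵥ c v ≤ 1 + ε
      linarith
    · change A k ⬝ᵥ c v ≤ 1 + ε
      rw [hc v k hk hkv]
      linarith
  · intro u w huw _
    exact huw
  · have hinj : Set.InjOn (fun k => F.erase k) (F : Set (Fin m)) := by
      intro a ha b hb hab
      by_contra hne
      have h1 : a ∈ F.erase b := Finset.mem_erase.mpr ⟨hne, ha⟩
      simp only at hab
      rw [← hab] at h1
      simp at h1
    have hfilter : ∀ (q : Finset (Fin m) → Prop) [DecidablePred q],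
        Finset.card ((F.image fun k => F.erase k).filter q) =
          Finset.card (F.filter fun k => q (F.erase k)) := by
      intro q _
      rw [Finset.filter_image, Finset.card_image_of_injOn]
      exact hinj.mono (fun k hk => (Finset.mem_filter.mp hk).1)
    refine ⟨F.image fun k => F.erase k, ?_, ?_, ?_⟩
    · intro B hB
      obtain ⟨k, hk, rfl⟩ := Finset.mem_image.mp hB
      refine ⟨by rw [Finset.card_erase_of_mem hk, hF]; rfl, ⟨k, (Finset.mem_filter.mp hk).2⟩, ?_⟩
      have h1 := herase ⟨k, (Finset.mem_filter.mp hk).2⟩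
      change F.erase k ⊆ _
      exact h1.le
    · intro R hR
      rw [hfilter]
      by_cases hRF : R ⊆ F
      · have h1 : (F.filter fun k => R ⊆ F.erase k) = F \ R := by
          ext k
          rw [Finset.mem_filter, Finset.mem_sdiff]
          constructor
          · rintro ⟨h1, h2⟩
            exact ⟨h1, fun h => by simpa using h2 h⟩
          · rintro ⟨h1, h2⟩
            exact ⟨h1, fun l hl => Finset.mem_erase.mpr ⟨fun h => h2 (h ▸ hl), hRF hl⟩⟩
        rw [h1, Finset.card_sdiff_of_subset hRF, hF]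
        have : d + 1 - R.card = 2 := by omega
        rw [this]
        exact even_two
      · have h1 : (F.filter fun k => R ⊆ F.erase k) = ∅ := by
          rw [Finset.filter_eq_empty_iff]
          intro k _ h
          exact hRF (h.trans (Finset.erase_subset _ _))
        rw [h1]
        simp
    · intro f hf
      rw [hfilter]
      exact odd_start hF hray hf

/-- a point of `P_n` lies in the convex hull of the points of the nodes -/
lemma mem_hull {A : Fin m → Fin d → ℝ} {ε : ℝ} {n : ℕ} {s : State d m} (hs : Inv A ε n s)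
    {y : Fin d → ℝ} (hy : ∀ k : Fin m, (k : ℕ) < n → A k ⬝ᵥ y ≤ 1) :
    y ∈ convexHull ℝ (Set.range s.c) := by
  classical
  haveI := s.fin
  apply mem_convexHull_of_generic A
  intro f hf
  obtain ⟨z, hz⟩ := hs.cyc
  obtain ⟨B, hB⟩ := Finset.card_pos.mp (hz.odd f hf).pos
  rw [Finset.mem_filter] at hB
  obtain ⟨hBz, x, hx, hx0, hxs⟩ := hB
  obtain ⟨-, v, hv⟩ := hz.sub B hBz
  refine ⟨v, ?_⟩
  rw [← hxs, sum_smul_dot, sum_smul_dot]
  apply Finset.sum_le_sum
  intro k _
  by_cases hk : k ∈ B
  · apply mul_le_mul_of_nonneg_left _ (hx k)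
    exact (hy k (hs.lt v k (hv hk))).trans (hs.ge v k (hv hk))
  · rw [hx0 k hk, zero_mul, zero_mul]

lemma inv_step (hd : 2 ≤ d) {A : Fin m → Fin d → ℝ} {ε : ℝ} (hε : 0 ≤ ε) {n : ℕ}
    {s : State d m} (hs : Inv A ε n s) (i : Fin m) (hn : (i : ℕ) = n) (q : Partition A ε i s)
    (p : Points q) : Inv A ε (n + 1) (next q p) := by
  classical
  have hiI : ∀ v, i ∉ s.I v := fun v h => by
    have := hs.lt v i h
    omega
  have hcase : ∀ v, v ∈ q.Vm ∨ v ∈ q.V0 ∨ v ∈ q.Vp := by
    intro v
    have := q.union.ge (Set.mem_univ v)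
    rcases this with (h | h) | h
    · exact Or.inl h
    · exact Or.inr (Or.inl h)
    · exact Or.inr (Or.inr h)
  have hseg : ∀ (k : Fin m) (e : Crossing q), ∃ a b : ℝ, 0 ≤ a ∧ 0 ≤ b ∧ a + b = 1 ∧
      A k ⬝ᵥ p.pt e = a * (A k ⬝ᵥ s.c e.1.1) + b * (A k ⬝ᵥ s.c e.1.2) := by
    intro k e
    obtain ⟨a, b, ha, hb, hab, he⟩ := p.mem_segment e
    refine ⟨a, b, ha, hb, hab, ?_⟩
    rw [← he, dotProduct_add, dotProduct_smul, dotProduct_smul, smul_eq_mul, smul_eq_mul]
  refine ⟨?_, ?_, ?_, ?_, ?_⟩
  · rintro (v | e) k hk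
    · change k ∈ newI q (Sum.inl v) at hk
      rw [newI] at hk
      split_ifs at hk with h
      · rcases Finset.mem_insert.mp hk with h1 | h1
        · rw [h1, hn]; exact Nat.lt_succ_self n
        · exact (hs.lt v.1 k h1).trans (Nat.lt_succ_self n)
      · exact (hs.lt v.1 k hk).trans (Nat.lt_succ_self n)
    · change k ∈ newI q (Sum.inr e) at hk
      rw [newI] at hk
      rcases Finset.mem_insert.mp hk with h1 | h1
      · rw [h1, hn]; exact Nat.lt_succ_self n
      · exact (hs.lt e.1.1 k (Finset.mem_inter.mp h1).1).trans (Nat.lt_succ_self n)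
  · rintro (v | e) k hk
    · change k ∈ newI q (Sum.inl v) at hk
      change 1 ≤ A k ⬝ᵥ s.c v.1
      rw [newI] at hk
      split_ifs at hk with h
      · rcases Finset.mem_insert.mp hk with h1 | h1
        · rw [h1]; exact (q.zero v.1 h).1
        · exact hs.ge v.1 k h1
      · exact hs.ge v.1 k hk
    · change k ∈ newI q (Sum.inr e) at hk
      change 1 ≤ A k ⬝ᵥ p.pt e
      rw [newI] at hk
      rcases Finset.mem_insert.mp hk with h1 | h1
      · rw [h1]; exact p.ge e
      · rw [Finset.mem_inter] at h1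
        obtain ⟨a, b, ha, hb, hab, he⟩ := hseg k e
        rw [he]
        have h2 := mul_le_mul_of_nonneg_left (hs.ge _ k h1.1) ha
        have h3 := mul_le_mul_of_nonneg_left (hs.ge _ k h1.2) hb
        linarith
  · rintro (v | e) k hk
    · change A k ⬝ᵥ s.c v.1 ≤ 1 + ε
      rcases Nat.lt_succ_iff_lt_or_eq.mp hk with h | h
      · exact hs.le v.1 k h
      · have hki : k = i := Fin.ext (h.trans hn.symm)
        rw [hki]
        rcases hcase v.1 with h1 | h1 | h1
        · have := q.minus v.1 h1
          linarith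
        · exact (q.zero v.1 h1).2
        · exact absurd h1 v.2
    · change A k ⬝ᵥ p.pt e ≤ 1 + ε
      rcases Nat.lt_succ_iff_lt_or_eq.mp hk with h | h
      · obtain ⟨a, b, ha, hb, hab, he⟩ := hseg k e
        rw [he]
        have h2 := mul_le_mul_of_nonneg_left (hs.le e.1.1 k h) ha
        have h3 := mul_le_mul_of_nonneg_left (hs.le e.1.2 k h) hb
        calc a * (A k ⬝ᵥ s.c e.1.1) + b * (A k ⬝ᵥ s.c e.1.2) ≤ a * (1 + ε) + b * (1 + ε) := by
              linarith
          _ = 1 + ε := by rw [← add_mul, hab, one_mul]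
      · have hki : k = i := Fin.ext (h.trans hn.symm)
        rw [hki]
        exact p.le e
  · intro u w huw hcard
    exact ⟨huw, hcard⟩
  · obtain ⟨z, hz⟩ := hs.cyc
    have hv : ∀ B : Finset (Fin m), ∃ v, B ∈ z → B ⊆ s.I v := by
      intro B
      by_cases hB : B ∈ z
      · obtain ⟨v, hv⟩ := (hz.sub B hB).2
        exact ⟨v, fun _ => hv⟩
      · obtain ⟨v, -⟩ := q.nonempty
        exact ⟨v, fun h => absurd h hB⟩
    choose vB hvB using hv
    set zm := z.filter fun B => vB B ∈ q.Vm with hzm
    set zp := z.filter fun B => ¬ vB B ∈ q.Vm with hzp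
    have hu : z = zm ∪ zp := (Finset.filter_union_filter_not_eq _ _).symm
    have hdis : Disjoint zm zp := Finset.disjoint_filter_filter_not _ _ _
    have hiB : ∀ B ∈ z, i ∉ B := fun B hB h => hiI _ (hvB B hB h)
    have hcB : ∀ B ∈ z, B.card = d := fun B hB => (hz.sub B hB).1
    have hmz : ∀ B ∈ zm, B ∈ z := fun B hB => (Finset.mem_filter.mp hB).1
    have hpz : ∀ B ∈ zp, B ∈ z := fun B hB => (Finset.mem_filter.mp hB).1
    refine ⟨newCycle d i zm, ?_, ?_, ?_⟩
    · intro B hB
      rcases Finset.mem_union.mp hB with hB1 | hB1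
      · refine ⟨hcB B (hmz B hB1), ?_⟩
        have h1 : vB B ∈ q.Vm := (Finset.mem_filter.mp hB1).2
        have h2 : vB B ∉ q.Vp := fun h => (Set.disjoint_left.mp q.disj_mp) h1 h
        refine ⟨Sum.inl ⟨vB B, h2⟩, ?_⟩
        change B ⊆ newI q (Sum.inl ⟨vB B, h2⟩)
        rw [newI]
        split_ifs
        · exact (hvB B (hmz B hB1)).trans (Finset.subset_insert _ _)
        · exact hvB B (hmz B hB1)
      · obtain ⟨R, hR, rfl⟩ := Finset.mem_image.mp hB1
        have hiR := notMem_of_mem_odds (fun B hB => hiB B (hmz B hB)) hR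
        obtain ⟨hiR1, B1, hB1m, hRB1⟩ := hiR
        have hRc : R.card + 1 = d := (Finset.mem_filter.mp hR).2.1
        refine ⟨by rw [Finset.card_insert_of_notMem hiR1, hRc], ?_⟩
        rw [odds_eq hu hdis hz.bdry] at hR
        obtain ⟨-, B2, hB2p, hRB2⟩ := notMem_of_mem_odds (fun B hB => hiB B (hpz B hB)) hR
        have h1 : vB B1 ∈ q.Vm := (Finset.mem_filter.mp hB1m).2
        have h2 : vB B2 ∉ q.Vm := (Finset.mem_filter.mp hB2p).2
        have hR1 : R ⊆ s.I (vB B1) := hRB1.trans (hvB B1 (hmz B1 hB1m))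
        have hR2 : R ⊆ s.I (vB B2) := hRB2.trans (hvB B2 (hpz B2 hB2p))
        rcases hcase (vB B2) with h3 | h3 | h3
        · exact absurd h3 h2
        · have h4 : vB B2 ∉ q.Vp := fun h => (Set.disjoint_left.mp q.disj_0p) h3 h
          refine ⟨Sum.inl ⟨vB B2, h4⟩, ?_⟩
          change insert i R ⊆ newI q (Sum.inl ⟨vB B2, h4⟩)
          rw [newI, if_pos h3]
          exact Finset.insert_subset_insert _ hR2
        · have hne : vB B1 ≠ vB B2 := fun h => h2 (h ▸ h1)
          have hadj : s.G.Adj (vB B1) (vB B2) := by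
            apply hs.adj _ _ hne
            have := Finset.card_le_card (Finset.subset_inter hR1 hR2)
            omega
          refine ⟨Sum.inr ⟨(vB B1, vB B2), h1, h3, hadj⟩, ?_⟩
          change insert i R ⊆ insert i (s.I (vB B1) ∩ s.I (vB B2))
          exact Finset.insert_subset_insert _ (Finset.subset_inter hR1 hR2)
    · intro R hR
      exact bdry_newCycle hd (fun B hB => hcB B (hmz B hB)) (fun B hB => hiB B (hmz B hB)) R hR
    · intro f hf
      apply odd_newCycle hu hdis hz.bdry hcB hiB _ hf (hz.odd f hf)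
      intro B hB
      refine ⟨s.c (vB B), ?_⟩
      intro k hk
      rcases Finset.mem_insert.mp hk with h1 | h1
      · rw [h1]
        rcases hcase (vB B) with h3 | h3 | h3
        · exact absurd h3 (Finset.mem_filter.mp hB).2
        · have := (q.zero _ h3).1
          linarith
        · have := q.plus _ h3
          linarith
      · have := hs.ge (vB B) k (hvB B (hpz B hB) h1)
        linarith

lemma inv_of_reach (hd : 2 ≤ d) {A : Fin m → Fin d → ℝ} {ε : ℝ} (hA : Admissible A ε) {n : ℕ}
    {s : State d m} (hr : Reach A ε n s) : Inv A ε n s := by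
  induction hr with
  | start s hs => exact inv_start hA s hs
  | step n s _ hn q p ih => exact inv_step hd hA.eps_nonneg ih ⟨n, hn⟩ rfl q p

end invariant

/-- **The approximate double description method is correct in every dimension `d ≥ 2`.** -/
theorem result : ∀ d : ℕ, 2 ≤ d → CorrectInDimension d := by
  classical
  intro d hd m A ε hA
  have hε := hA.eps_nonneg
  refine ⟨exists_start hA, ?_, ?_⟩
  · intro n s hr hn
    have hinv := inv_of_reach hd hA hr
    constructor
    · have hne : {v : s.V | A ⟨n, hn⟩ ⬝ᵥ s.c v < 1 + ε / 2}.Nonempty := by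
        by_contra hcon
        rw [Set.not_nonempty_iff_eq_empty, Set.eq_empty_iff_forall_notMem] at hcon
        have h0 : (0 : Fin d → ℝ) ∈ convexHull ℝ (Set.range s.c) := by
          apply mem_hull hinv
          intro k _
          rw [dotProduct_zero]
          norm_num
        have h1 : convexHull ℝ (Set.range s.c) ⊆
            {x : Fin d → ℝ | 1 + ε / 2 ≤ A ⟨n, hn⟩ ⬝ᵥ x} := by
          apply convexHull_min
          · rintro _ ⟨v, rfl⟩
            have h9 : ¬ (A ⟨n, hn⟩ ⬝ᵥ s.c v < 1 + ε / 2) := hcon v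
            exact not_lt.mp h9
          · intro x hx y hy a b ha hb hab
            simp only [Set.mem_setOf_eq] at hx hy ⊢
            rw [dotProduct_add, dotProduct_smul, dotProduct_smul, smul_eq_mul, smul_eq_mul]
            have h2 := mul_le_mul_of_nonneg_left hx ha
            have h3 := mul_le_mul_of_nonneg_left hy hb
            calc 1 + ε / 2 = a * (1 + ε / 2) + b * (1 + ε / 2) := by
                  rw [← add_mul, hab, one_mul]
              _ ≤ _ := by linarith
        have h2 := h1 h0
        simp only [Set.mem_setOf_eq, dotProduct_zero] at h2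
        linarith
      exact ⟨{ Vm := {v | A ⟨n, hn⟩ ⬝ᵥ s.c v < 1 + ε / 2}
               V0 := {v | A ⟨n, hn⟩ ⬝ᵥ s.c v = 1 + ε / 2}
               Vp := {v | 1 + ε / 2 < A ⟨n, hn⟩ ⬝ᵥ s.c v}
               nonempty := hne
               disj_m0 := by
                 rw [Set.disjoint_left]
                 intro v h1 h2
                 simp only [Set.mem_setOf_eq] at h1 h2
                 linarith
               disj_mp := by
                 rw [Set.disjoint_left]
                 intro v h1 h2
                 simp only [Set.mem_setOf_eq] at h1 h2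
                 linarith
               disj_0p := by
                 rw [Set.disjoint_left]
                 intro v h1 h2
                 simp only [Set.mem_setOf_eq] at h1 h2
                 linarith
               union := by
                 ext v
                 simp only [Set.mem_union, Set.mem_setOf_eq, Set.mem_univ, iff_true]
                 rcases lt_trichotomy (A ⟨n, hn⟩ ⬝ᵥ s.c v) (1 + ε / 2) with h | h | h
                 · exact Or.inl (Or.inl h)
                 · exact Or.inl (Or.inr h)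
                 · exact Or.inr h
               minus := fun v h => h
               plus := fun v h => h
               zero := fun v h => by
                 simp only [Set.mem_setOf_eq] at h
                 rw [h]
                 constructor <;> linarith }⟩
    · intro q
      have h1 : ∀ e : Crossing q, ∃ x : Fin d → ℝ, x ∈ segment ℝ (s.c e.1.1) (s.c e.1.2) ∧
          A ⟨n, hn⟩ ⬝ᵥ x = 1 + ε / 2 := by
        intro e
        have hu := q.minus e.1.1 e.2.1
        have hw := q.plus e.1.2 e.2.2.1
        set α := A ⟨n, hn⟩ ⬝ᵥ s.c e.1.1 with hα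
        set β := A ⟨n, hn⟩ ⬝ᵥ s.c e.1.2 with hβ
        have hαβ : 0 < β - α := by linarith
        refine ⟨((β - (1 + ε / 2)) / (β - α)) • s.c e.1.1 +
          (((1 + ε / 2) - α) / (β - α)) • s.c e.1.2, ⟨_, _, ?_, ?_, ?_, rfl⟩, ?_⟩
        · exact div_nonneg (by linarith) hαβ.le
        · exact div_nonneg (by linarith) hαβ.le
        · rw [← add_div]
          rw [div_eq_one_iff_eq hαβ.ne']
          ring
        · rw [dotProduct_add, dotProduct_smul, dotProduct_smul, smul_eq_mul, smul_eq_mul,
            ← hα, ← hβ]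
          field_simp
          ring
      choose x hx1 hx2 using h1
      exact ⟨{ pt := x, mem_segment := hx1,
               ge := fun e => by rw [hx2]; linarith,
               le := fun e => by rw [hx2]; linarith }⟩
  · intro s hr
    have hinv := inv_of_reach hd hA hr
    constructor
    · intro y hy
      apply mem_hull hinv
      intro k _
      have := hy k
      linarith
    · apply convexHull_min
      · rintro _ ⟨v, rfl⟩ k
        exact hinv.le v k k.2
      · intro x hx y hy a b ha hb hab k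
        rw [dotProduct_add, dotProduct_smul, dotProduct_smul, smul_eq_mul, smul_eq_mul]
        have h2 := mul_le_mul_of_nonneg_left (hx k) ha
        have h3 := mul_le_mul_of_nonneg_left (hy k) hb
        calc a * (A k ⬝ᵥ x) + b * (A k ⬝ᵥ y) ≤ a * (1 + ε) + b * (1 + ε) := by linarith
          _ = 1 + ε := by rw [← add_mul, hab, one_mul]

end Pool.Agent.Results.MP_d4db3843_lc.CorrectEveryDimension
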